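import Pool.Agent.H535R3.KC

/-!
# Adjacencies of the phase-lock areas lie on the axes (scaled coordinates)
-/

set_option autoImplicit false
open Set Filter Topology

namespace Pool.Agent.U375.JO

open H535R3

/-- `(0, a)` is in the phase-lock area with number zero. -/
lemma zero_mem (a ε : ℝ) : ((0 : ℝ), a) ∈ Ls 0 ε := by
  obtain ⟨y, hy⟩ := zero_b a ε
  obtain ⟨z, hz⟩ := zero_b (-a) ε
  have hS : Sol 0 a ε (fun t => -(fl 0 (-a) ε z t)) := by
    intro t
    have := (fl_sol 0 (-a) ε z t).neg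
    refine this.congr_deriv ?_
    rw [Real.sin_neg]
    ring
  have h1 := congrFun hS.eq_fl (2 * Real.pi)
  simp only [fl_zero] at h1
  have h2 : P 0 a ε (-z) = -P 0 (-a) ε z := h1.symm
  refine mem_Ls_of (q := ((0 : ℝ), a)) (u := -z) (v := y) ?_ ?_
  · simp only [Int.cast_zero, mul_zero, add_zero]
    rw [h2]
    linarith
  · simp only [Int.cast_zero, mul_zero, add_zero]
    exact hy

/-- The adjacencies are on the axis. -/
theorem adj_axis {r : ℤ} {ε b a : ℝ} (hε : 0 < ε) (ha : 0 < a) (h : (b, a) ∈ Ls r ε)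
    (hu : ∀ b', (b', a) ∈ Ls r ε → b' = b) : b = r := by
  rcases lt_trichotomy r 0 with hr | hr | hr
  · obtain ⟨n, hn⟩ : ∃ n : ℕ, -r = n := ⟨(-r).toNat, by omega⟩
    have h' := Ls_neg h
    have hu' := single_neg hu
    rw [hn] at h' hu'
    have h1 := ident_axis (ε := ε) (r := n) (by omega) hε ha (by exact_mod_cast single_ident h' hu')
    have h2 : (r : ℝ) = -(n : ℝ) := by
      have : r = -(n : ℤ) := by omega
      rw [this]; push_cast; ring
    rw [h2]
    linarith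
  · subst hr
    have h2 := Ls_neg h
    have := hu _ (by simpa using h2)
    push_cast
    linarith
  · obtain ⟨n, rfl⟩ : ∃ n : ℕ, r = n := ⟨r.toNat, by omega⟩
    have h1 := ident_axis (ε := ε) (r := n) (by omega) hε ha (by exact_mod_cast single_ident h hu)
    rw [h1]
    push_cast
    rfl

/-- Above a point of the area, the axis is in the area. -/
theorem axis_up {r : ℤ} {ε a a' : ℝ} (hε : 0 < ε) (ha : 0 ≤ a) (haa : a ≤ a')
    (h : ((r : ℝ), a) ∈ Ls r ε) : ((r : ℝ), a') ∈ Ls r ε := by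
  have key : ∀ n : ℕ, (((n + 1 : ℤ) : ℝ), a) ∈ Ls (n + 1) ε → (((n + 1 : ℤ) : ℝ), a') ∈ Ls (n + 1) ε := by
    intro n hn
    have e : (((n + 1 : ℤ) : ℝ)) = (n : ℝ) + 1 := by push_cast; ring
    rw [e] at hn ⊢
    exact (axis_iff n (ha.trans haa) hε).2 (((axis_iff n ha hε).1 hn).trans haa)
  rcases lt_trichotomy r 0 with hr | hr | hr
  · obtain ⟨n, hn⟩ : ∃ n : ℕ, -r = n + 1 := ⟨(-r - 1).toNat, by omega⟩
    have h' := Ls_neg h
    rw [hn] at h'
    have e : -(r : ℝ) = ((n + 1 : ℤ) : ℝ) := by rw [← hn]; push_cast; ring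
    rw [e] at h'
    have h2 := Ls_neg (key n h')
    have e2 : -((n : ℤ) + 1) = r := by omega
    rw [e2, ← e, neg_neg] at h2
    exact h2
  · subst hr
    push_cast
    exact zero_mem a' ε
  · obtain ⟨n, rfl⟩ : ∃ n : ℕ, r = n + 1 := ⟨(r - 1).toNat, by omega⟩
    exact key n h

/-- Membership in the torus form. -/
lemma mem_torus {ω : ℝ} (hω : 0 < ω) (r : ℤ) (B A : ℝ) :
    (∃ φ : ℝ → ℝ, (∀ τ : ℝ, HasDerivAt φ (1 / ω * (-Real.sin (φ τ) + B + A * Real.cos τ)) τ) ∧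
            Tendsto (fun τ : ℝ => φ τ / τ) atTop (𝓝 (r : ℝ))) ↔
      (B / ω, A / ω) ∈ Ls r (1 / ω) := by
  have hS : ∀ φ : ℝ → ℝ, (∀ τ : ℝ, HasDerivAt φ (1 / ω * (-Real.sin (φ τ) + B + A * Real.cos τ)) τ) ↔
      Sol (B / ω) (A / ω) (1 / ω) φ := by
    intro φ
    constructor
    · intro h τ
      refine (h τ).congr_deriv ?_
      field_simp; ring
    · intro h τ
      refine (h τ).congr_deriv ?_
      field_simp; ring
  constructor
  · rintro ⟨φ, h1, h2⟩
    exact Lk_iff.1 (Lk_of_one ((hS φ).1 h1) h2)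
  · intro h
    exact ⟨fl (B / ω) (A / ω) (1 / ω) 0, (hS _).2 (fl_sol _ _ _ _), Lk_iff.2 h _ (fl_sol _ _ _ _)⟩

end Pool.Agent.U375.JO
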