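import Mathlib

/-!
# An oscillatory integral with one stationary point at the endpoint
-/

set_option autoImplicit false
open Set Filter Topology

namespace Pool.Agent.U375.JO

/-- mean value estimate -/
lemma mve {f f' : ℝ → ℝ} {p q C : ℝ} (hpq : p ≤ q) (hd : ∀ x ∈ Icc p q, HasDerivAt f (f' x) x)
    (hC : ∀ x ∈ Icc p q, |f' x| ≤ C) : |f q - f p| ≤ C * (q - p) := by
  have h := Convex.norm_image_sub_le_of_norm_hasDerivWithin_le (f := f) (f' := f') (s := Icc p q) (C := C)
    (x := p) (y := q) (fun x hx => (hd x hx).hasDerivWithinAt) (fun x hx => by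
      rw [Real.norm_eq_abs]; exact hC x hx) (convex_Icc p q) ⟨le_rfl, hpq⟩ ⟨hpq, le_rfl⟩
  rw [Real.norm_eq_abs, Real.norm_eq_abs, abs_of_nonneg (by linarith : 0 ≤ q - p)] at h
  exact h

/-- mean value estimate from below -/
lemma mvl {f f' : ℝ → ℝ} {p q m : ℝ} (hpq : p ≤ q) (hd : ∀ x ∈ Icc p q, HasDerivAt f (f' x) x)
    (hm : ∀ x ∈ Icc p q, m ≤ f' x) : m * (q - p) ≤ f q - f p := by
  rcases hpq.lt_or_eq with h | h
  · obtain ⟨c, hc, hc2⟩ := exists_hasDerivAt_eq_slope f f' h
      (fun x hx => (hd x hx).continuousAt.continuousWithinAt) (fun x hx => hd x ⟨hx.1.le, hx.2.le⟩)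
    have h1 := hm c ⟨hc.1.le, hc.2.le⟩
    rw [hc2, le_div_iff₀ (by linarith)] at h1
    exact h1
  · rw [h]; simp

/-- the phase -/
noncomputable def ph (a s : ℝ) : ℝ := a * (1 - Real.cos s)

lemma ph_deriv (a s : ℝ) : HasDerivAt (ph a) (a * Real.sin s) s := by
  have := ((Real.hasDerivAt_cos s).const_sub 1).const_mul a
  refine this.congr_deriv ?_
  ring

lemma ph_cont (a : ℝ) : Continuous (ph a) := by
  unfold ph
  fun_prop

lemma sin_lower {s : ℝ} (h0 : 0 ≤ s) (h1 : s ≤ Real.pi / 2) : s / 2 ≤ Real.sin s := by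
  have h := Real.mul_le_sin h0 h1
  have h2 : (1 : ℝ) / 2 ≤ 2 / Real.pi := by
    rw [div_le_div_iff₀ (by norm_num) Real.pi_pos]
    linarith [Real.pi_le_four]
  calc s / 2 = 1 / 2 * s := by ring
    _ ≤ 2 / Real.pi * s := by gcongr
    _ ≤ _ := h

/-- Comparison of the integral of `sin (h - τ)` with that of `-sin τ`. -/
lemma compare {h h' : ℝ → ℝ} (hh : ∀ s, HasDerivAt h (h' s) s) {K H d : ℝ} (hK : ∀ s, |h' s| ≤ K)
    (hH : |h 0| ≤ H) (hd0 : 0 < d) (hd1 : d ≤ 1) :
    |∫ s in (0:ℝ)..(Real.pi / 2), (Real.sin (h s - ph (1 / d ^ 3) s) + Real.sin (ph (1 / d ^ 3) s))| ≤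
      20 * H * d + 30 * K * d ^ 2 := by
  set a : ℝ := 1 / d ^ 3 with ha
  have hap : 0 < a := by positivity
  have had : a * d ^ 3 = 1 := by rw [ha]; field_simp
  have hK0 : 0 ≤ K := (abs_nonneg _).trans (hK 0)
  have hH0 : 0 ≤ H := (abs_nonneg _).trans hH
  have hpi := Real.pi_gt_three
  have hpi4 := Real.pi_le_four
  have hcont : Continuous h := continuous_iff_continuousAt.2 fun s => (hh s).continuousAt
  have hpc := ph_cont a
  set g : ℝ → ℝ := fun s => Real.sin (h s - ph a s) + Real.sin (ph a s) with hg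
  have hgc : Continuous g := by fun_prop
  have hbound : ∀ s, 0 ≤ s → |h s| ≤ H + K * s := by
    intro s hs
    have h1 := mve (f := h) (f' := h') (C := K) hs (fun x _ => hh x) (fun x _ => hK x)
    rw [sub_zero] at h1
    calc |h s| = |h 0 + (h s - h 0)| := by congr 1; ring
      _ ≤ |h 0| + |h s - h 0| := abs_add_le _ _
      _ ≤ H + K * s := add_le_add hH h1
  -- near part
  have near : |∫ s in (0:ℝ)..d, g s| ≤ (H + K * d) * d := by
    have h1 := intervalIntegral.norm_integral_le_of_norm_le_const (a := (0:ℝ)) (b := d) (C := H + K * d)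
      (f := g) (fun s hs => by
        rw [uIoc_of_le hd0.le] at hs
        rw [Real.norm_eq_abs]
        have h2 : |g s| ≤ |h s| := by
          have h3 : g s = Real.sin (h s - ph a s) - Real.sin (-(ph a s)) := by
            simp only [hg, Real.sin_neg]; ring
          rw [h3]
          refine (Real.abs_sin_sub_sin_le _ _).trans (le_of_eq ?_)
          congr 1; ring
        refine h2.trans ((hbound s hs.1.le).trans ?_)
        have := hs.2
        gcongr)
    rw [Real.norm_eq_abs, sub_zero, abs_of_pos hd0] at h1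
    exact h1
  -- far part
  set N : ℝ → ℝ := fun s => Real.cos (h s - ph a s) - Real.cos (ph a s) with hN
  set F : ℝ → ℝ := fun s => N s / (a * Real.sin s) with hF
  have hNb : ∀ s, |N s| ≤ |h s| := by
    intro s
    have : N s = Real.cos (h s - ph a s) - Real.cos (-(ph a s)) := by simp only [hN, Real.cos_neg]
    rw [this]
    refine (Real.abs_cos_sub_cos_le _ _).trans (le_of_eq ?_)
    congr 1; ring
  set Φ : ℝ → ℝ := fun x => (∫ s in d..x, g s) - F x with hΦ
  have hsin : ∀ s ∈ Icc d (Real.pi / 2), 0 < Real.sin s ∧ s / 2 ≤ Real.sin s ∧ 0 < s := by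
    intro s hs
    have h1 : 0 < s := hd0.trans_le hs.1
    have h2 := sin_lower h1.le hs.2
    exact ⟨by linarith, h2, h1⟩
  have hder : ∀ x ∈ Icc d (Real.pi / 2), HasDerivAt Φ (h' x * Real.sin (h x - ph a x) / (a * Real.sin x) +
      N x * Real.cos x / (a * Real.sin x ^ 2)) x := by
    intro x hx
    obtain ⟨hs1, hs2, hx0⟩ := hsin x hx
    have h1 : HasDerivAt (fun x => ∫ s in d..x, g s) (g x) x := (hgc.integral_hasStrictDerivAt d x).hasDerivAt
    have h2 : HasDerivAt N (-Real.sin (h x - ph a x) * (h' x - a * Real.sin x) -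
        -Real.sin (ph a x) * (a * Real.sin x)) x :=
      (((hh x).sub (ph_deriv a x)).cos).sub ((ph_deriv a x).cos)
    have h3 : HasDerivAt (fun s => a * Real.sin s) (a * Real.cos x) x := (Real.hasDerivAt_sin x).const_mul a
    have h4 := h1.sub (h2.div h3 (by positivity))
    refine h4.congr_deriv ?_
    simp only [hg]
    field_simp
    ring
  have hderb : ∀ x ∈ Icc d (Real.pi / 2), |h' x * Real.sin (h x - ph a x) / (a * Real.sin x) +
      N x * Real.cos x / (a * Real.sin x ^ 2)| ≤ 6 * K * d ^ 2 + 4 * H * d := by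
    intro x hx
    obtain ⟨hs1, hs2, hx0⟩ := hsin x hx
    have e1 : a * Real.sin x ≥ 1 / (2 * d ^ 2) := by
      have h1 : a * (x / 2) ≤ a * Real.sin x := by gcongr
      have h2 : a * (d / 2) ≤ a * (x / 2) := by have := hx.1; gcongr
      have h3 : a * (d / 2) = 1 / (2 * d ^ 2) := by rw [ha]; field_simp
      linarith
    have t1 : |h' x * Real.sin (h x - ph a x) / (a * Real.sin x)| ≤ 2 * K * d ^ 2 := by
      rw [abs_div, abs_mul, abs_of_pos (by positivity : 0 < a * Real.sin x), div_le_iff₀ (by positivity)]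
      have h1 : |h' x| * |Real.sin (h x - ph a x)| ≤ K * 1 :=
        mul_le_mul (hK x) (Real.abs_sin_le_one _) (abs_nonneg _) hK0
      have h2 : K * 1 = 2 * K * d ^ 2 * (1 / (2 * d ^ 2)) := by field_simp
      have h3 : 2 * K * d ^ 2 * (1 / (2 * d ^ 2)) ≤ 2 * K * d ^ 2 * (a * Real.sin x) :=
        mul_le_mul_of_nonneg_left e1 (by positivity)
      linarith
    have t2 : |N x * Real.cos x / (a * Real.sin x ^ 2)| ≤ 4 * K * d ^ 2 + 4 * H * d := by
      rw [abs_div, abs_mul, abs_of_pos (by positivity : 0 < a * Real.sin x ^ 2), div_le_iff₀ (by positivity)]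
      have h1 : |N x| * |Real.cos x| ≤ (H + K * x) * 1 :=
        mul_le_mul ((hNb x).trans (hbound x hx0.le)) (Real.abs_cos_le_one _) (abs_nonneg _) (by positivity)
      have h2 : a * Real.sin x ^ 2 ≥ a * (x / 2) ^ 2 := by gcongr
      have h3 : (4 * K * d ^ 2 + 4 * H * d) * (a * (x / 2) ^ 2) ≤
          (4 * K * d ^ 2 + 4 * H * d) * (a * Real.sin x ^ 2) := mul_le_mul_of_nonneg_left h2 (by positivity)
      have h4 : (4 * K * d ^ 2 + 4 * H * d) * (a * (x / 2) ^ 2) = (K * x * (x / d) + H * (x / d) ^ 2) := by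
        rw [ha]; field_simp; ring
      have h5 : 1 ≤ x / d := by rw [le_div_iff₀ hd0]; linarith [hx.1]
      have h6 : K * x * 1 ≤ K * x * (x / d) := mul_le_mul_of_nonneg_left h5 (by positivity)
      have h7 : H * 1 ≤ H * (x / d) ^ 2 := mul_le_mul_of_nonneg_left (one_le_pow₀ h5) hH0
      linarith
    refine (abs_add_le _ _).trans ?_
    linarith
  have hdle : d ≤ Real.pi / 2 := by linarith
  have far := mve hdle hder hderb
  have hΦd : Φ d = -F d := by simp [hΦ]
  have hFb : ∀ x ∈ Icc d (Real.pi / 2), |F x| ≤ 2 * (H + 2 * K) * d ^ 2 := by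
    intro x hx
    obtain ⟨hs1, hs2, hx0⟩ := hsin x hx
    simp only [hF]
    rw [abs_div, abs_of_pos (by positivity : 0 < a * Real.sin x), div_le_iff₀ (by positivity)]
    have h1 : |N x| ≤ H + 2 * K := by
      refine ((hNb x).trans (hbound x hx0.le)).trans ?_
      have : x ≤ 2 := by linarith [hx.2]
      have : K * x ≤ K * 2 := by gcongr
      linarith
    have e1 : a * Real.sin x ≥ 1 / (2 * d ^ 2) := by
      have h1 : a * (x / 2) ≤ a * Real.sin x := by gcongr
      have h2 : a * (d / 2) ≤ a * (x / 2) := by have := hx.1; gcongr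
      have h3 : a * (d / 2) = 1 / (2 * d ^ 2) := by rw [ha]; field_simp
      linarith
    have h2 : H + 2 * K = 2 * (H + 2 * K) * d ^ 2 * (1 / (2 * d ^ 2)) := by field_simp
    have h3 : 2 * (H + 2 * K) * d ^ 2 * (1 / (2 * d ^ 2)) ≤ 2 * (H + 2 * K) * d ^ 2 * (a * Real.sin x) :=
      mul_le_mul_of_nonneg_left e1 (by positivity)
    linarith
  have hsplit : ∫ s in (0:ℝ)..(Real.pi / 2), g s = (∫ s in (0:ℝ)..d, g s) + ∫ s in d..(Real.pi / 2), g s :=
    (intervalIntegral.integral_add_adjacent_intervals (hgc.intervalIntegrable _ _)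
      (hgc.intervalIntegrable _ _)).symm
  have hfar2 : ∫ s in d..(Real.pi / 2), g s = (Φ (Real.pi / 2) - Φ d) + F (Real.pi / 2) - F d := by
    rw [hΦd]
    simp only [hΦ]
    ring
  have b1 := hFb d ⟨le_rfl, hdle⟩
  have b2 := hFb (Real.pi / 2) ⟨hdle, le_rfl⟩
  have hgoal : |∫ s in (0:ℝ)..(Real.pi / 2), g s| ≤ (H + K * d) * d +
      ((6 * K * d ^ 2 + 4 * H * d) * (Real.pi / 2 - d) + 2 * (H + 2 * K) * d ^ 2 + 2 * (H + 2 * K) * d ^ 2) := by
    rw [hsplit, hfar2]
    refine (abs_add_le _ _).trans (add_le_add near ?_)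
    refine (abs_sub _ _).trans (add_le_add ?_ b1)
    exact (abs_add_le _ _).trans (add_le_add far b2)
  refine hgoal.trans ?_
  have c1 : (6 * K * d ^ 2 + 4 * H * d) * (Real.pi / 2 - d) ≤ (6 * K * d ^ 2 + 4 * H * d) * 2 := by
    apply mul_le_mul_of_nonneg_left _ (by positivity)
    linarith
  have c2 : H * d ^ 2 ≤ H * d := by
    apply mul_le_mul_of_nonneg_left _ hH0
    nlinarith
  have c3 : 0 ≤ K * d ^ 2 := by positivity
  have c4 : 0 ≤ H * d := by positivity
  nlinarith

/-- Lower bound for the main term. -/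
lemma main_lower {x : ℝ} (hx0 : 0 < x) (hx1 : x ≤ 1 / 10) :
    x / 50 ≤ ∫ s in (0:ℝ)..(Real.pi / 2), Real.sin (ph (1 / x ^ 2) s) := by
  set a : ℝ := 1 / x ^ 2 with ha
  have hap : 0 < a := by positivity
  have hax : a * x ^ 2 = 1 := by rw [ha]; field_simp
  have hpi := Real.pi_gt_three
  have hpi4 := Real.pi_le_four
  have hpi2 := Real.pi_lt_d2
  have hpi3 := Real.pi_gt_d2
  have hpc := ph_cont a
  set g : ℝ → ℝ := fun s => Real.sin (ph a s) with hg
  have hgc : Continuous g := by fun_prop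
  set Φ : ℝ → ℝ := fun y => (∫ s in (0:ℝ)..y, g s) - (1 - Real.cos (ph a y)) / (a * Real.sin y) with hΦ
  have hder : ∀ y, 0 < y → y ≤ Real.pi / 2 → HasDerivAt Φ ((1 - Real.cos (ph a y)) * Real.cos y /
      (a * Real.sin y ^ 2)) y := by
    intro y hy0 hy1
    have hs := sin_lower hy0.le hy1
    have hs0 : 0 < Real.sin y := by linarith
    have h1 : HasDerivAt (fun x => ∫ s in (0:ℝ)..x, g s) (g y) y := (hgc.integral_hasStrictDerivAt 0 y).hasDerivAt
    have h2 : HasDerivAt (fun s => 1 - Real.cos (ph a s)) (-(-Real.sin (ph a y) * (a * Real.sin y))) y :=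
      ((ph_deriv a y).cos).const_sub 1
    have h3 : HasDerivAt (fun s => a * Real.sin s) (a * Real.cos y) y := (Real.hasDerivAt_sin y).const_mul a
    refine (h1.sub (h2.div h3 (by positivity))).congr_deriv ?_
    simp only [hg]
    field_simp
    ring
  have hmono : ∀ p q, 0 < p → p ≤ q → q ≤ Real.pi / 2 → Φ p ≤ Φ q := by
    intro p q hp hpq hq
    have := mvl (m := 0) hpq (fun y hy => hder y (hp.trans_le hy.1) (hy.2.trans hq)) (fun y hy => by
      have h1 := Real.cos_le_one (ph a y)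
      have h2 := Real.cos_nonneg_of_neg_pi_div_two_le_of_le (x := y) (by linarith [hy.1]) (hy.2.trans hq)
      have h3 := sin_lower (hp.le.trans hy.1) (hy.2.trans hq)
      have h4 : 0 < y := hp.trans_le hy.1
      exact div_nonneg (mul_nonneg (by linarith) h2) (by positivity))
    linarith
  -- the start
  have hstart : -(x / 32) ≤ Φ (x / 2) := by
    have hs0 : 0 < x / 2 := by positivity
    have hs := sin_lower (s := x / 2) hs0.le (by linarith)
    have hph : ∀ s, 0 ≤ s → s ≤ x / 2 → 0 ≤ ph a s ∧ ph a s ≤ 1 / 8 := by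
      intro s h0 h1
      constructor
      · exact mul_nonneg hap.le (by linarith [Real.cos_le_one s])
      · have h2 := Real.one_sub_sq_div_two_le_cos (x := s)
        have h3 : s ^ 2 ≤ (x / 2) ^ 2 := by gcongr
        calc ph a s = a * (1 - Real.cos s) := rfl
          _ ≤ a * ((x / 2) ^ 2 / 2) := by gcongr; linarith
          _ = (a * x ^ 2) / 8 := by ring
          _ = 1 / 8 := by rw [hax]
    have h1 : 0 ≤ ∫ s in (0:ℝ)..(x / 2), g s := by
      refine intervalIntegral.integral_nonneg hs0.le fun s hs => ?_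
      obtain ⟨h2, h3⟩ := hph s hs.1 hs.2
      exact Real.sin_nonneg_of_nonneg_of_le_pi h2 (by linarith)
    obtain ⟨h2, h3⟩ := hph (x / 2) hs0.le le_rfl
    have h4 := Real.one_sub_sq_div_two_le_cos (x := ph a (x / 2))
    have h5 : 1 - Real.cos (ph a (x / 2)) ≤ 1 / 128 := by
      have : ph a (x / 2) ^ 2 ≤ (1 / 8) ^ 2 := by gcongr
      linarith
    have h6 : a * (x / 4) ≤ a * Real.sin (x / 2) := by
      gcongr; linarith
    have h7 : (1 - Real.cos (ph a (x / 2))) / (a * Real.sin (x / 2)) ≤ x / 32 := by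
      have h8 : 0 < a * (x / 4) := by positivity
      calc (1 - Real.cos (ph a (x / 2))) / (a * Real.sin (x / 2)) ≤ (1 / 128) / (a * (x / 4)) :=
            div_le_div₀ (by norm_num) h5 h8 h6
        _ = x / 32 := by rw [ha]; field_simp; norm_num
    simp only [hΦ]
    linarith
  -- the growth
  have hgrow : 1 / 18 * (3 * x - 2 * x) ≤ Φ (3 * x) - Φ (2 * x) := by
    refine mvl (by linarith) (fun y hy => hder y (by linarith [hy.1]) (by linarith [hy.2])) (fun y hy => ?_)
    have hy0 : 0 < y := by linarith [hy.1]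
    have hy3 : y ≤ 3 / 10 := by linarith [hy.2]
    have hsin : Real.sin y ≤ y := Real.sin_le hy0.le
    have hsin0 : 0 < Real.sin y := by linarith [sin_lower hy0.le (by linarith)]
    have hcos := Real.one_sub_sq_div_two_le_cos (x := y)
    have hcb := Real.cos_bound (x := y) (by rw [abs_of_pos hy0]; linarith)
    rw [abs_of_pos hy0] at hcb
    have hcb2 := (abs_le.1 hcb).2
    have hyy : y ^ 2 ≤ 9 / 100 := by nlinarith
    have hup : ph a y ≤ 9 / 2 := by
      have h3 : y ^ 2 ≤ (3 * x) ^ 2 := by have := hy.2; gcongr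
      calc ph a y = a * (1 - Real.cos y) := rfl
        _ ≤ a * ((3 * x) ^ 2 / 2) := by gcongr; linarith
        _ = (a * x ^ 2) * (9 / 2) := by ring
        _ = 9 / 2 := by rw [hax]; ring
    have hlo : 19 / 10 ≤ ph a y := by
      have h3 : (2 * x) ^ 2 ≤ y ^ 2 := by have := hy.1; gcongr
      have h4 : y ^ 2 * (95 / 200) ≤ 1 - Real.cos y := by nlinarith
      calc (19 : ℝ) / 10 = (a * x ^ 2) * (19 / 10) := by rw [hax]; ring
        _ = a * ((2 * x) ^ 2 * (95 / 200)) := by ring
        _ ≤ a * (y ^ 2 * (95 / 200)) := by gcongr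
        _ ≤ a * (1 - Real.cos y) := by gcongr
        _ = ph a y := rfl
    have hc1 : Real.cos (ph a y) ≤ 0 :=
      Real.cos_nonpos_of_pi_div_two_le_of_le (by linarith) (by linarith)
    have hc2 : (1 : ℝ) / 2 ≤ Real.cos y := by linarith
    rw [le_div_iff₀ (by positivity)]
    have h1 : 1 * (1 / 2) ≤ (1 - Real.cos (ph a y)) * Real.cos y :=
      mul_le_mul (by linarith) hc2 (by norm_num) (by linarith)
    have h2 : a * Real.sin y ^ 2 ≤ 9 := by
      calc a * Real.sin y ^ 2 ≤ a * (3 * x) ^ 2 := by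
            have : Real.sin y ≤ 3 * x := hsin.trans hy.2
            gcongr
        _ = (a * x ^ 2) * 9 := by ring
        _ = 9 := by rw [hax]; ring
    linarith
  have hend : Φ (Real.pi / 2) ≤ ∫ s in (0:ℝ)..(Real.pi / 2), g s := by
    simp only [hΦ]
    have : 0 ≤ (1 - Real.cos (ph a (Real.pi / 2))) / (a * Real.sin (Real.pi / 2)) := by
      rw [Real.sin_pi_div_two]
      exact div_nonneg (by linarith [Real.cos_le_one (ph a (Real.pi / 2))]) (by positivity)
    linarith
  have m1 := hmono (x / 2) (2 * x) (by positivity) (by linarith) (by linarith)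
  have m2 := hmono (3 * x) (Real.pi / 2) (by positivity) (by linarith) le_rfl
  linarith

end Pool.Agent.U375.JO
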