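import Pool.Agent.U375.JO.A
import Pool.Agent.U375.JO.B

/-!
# Sign of the displacement of the symmetric solution on the vertical lines, for large forcing
-/

set_option autoImplicit false
open Set Filter Topology

namespace Pool.Agent.U375.JO

open H535R3

/-- one half of the symmetric solution -/
noncomputable def hf (b a : ℝ) (φ : ℝ → ℝ) (κ s : ℝ) : ℝ :=
  φ (Real.pi / 2 + κ * s) - a * Real.cos s - (b + 1) * Real.pi / 2

lemma sin_hf {b a : ℝ} {m : ℤ} (ham : a + (b + 1) * Real.pi / 2 = m * Real.pi) (φ : ℝ → ℝ) (κ s : ℝ) :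
    Real.sin (φ (Real.pi / 2 + κ * s)) = (-1) ^ m * Real.sin (hf b a φ κ s - ph a s) := by
  rw [← Real.sin_add_int_mul_pi, ← ham]
  congr 1
  simp only [hf, ph]
  ring

lemma hf_deriv {b a ε : ℝ} {m : ℤ} (ham : a + (b + 1) * Real.pi / 2 = m * Real.pi) {φ : ℝ → ℝ}
    (hφ : Sol b a ε φ) {κ : ℝ} (hκ : κ = 1 ∨ κ = -1) (s : ℝ) :
    HasDerivAt (hf b a φ κ) (κ * (b - ε * ((-1) ^ m * Real.sin (hf b a φ κ s - ph a s)))) s := by
  have h1 : HasDerivAt (fun s : ℝ => Real.pi / 2 + κ * s) κ s := by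
    have := ((hasDerivAt_id s).const_mul κ).const_add (Real.pi / 2)
    simpa using this
  have h2 : HasDerivAt (fun s : ℝ => φ (Real.pi / 2 + κ * s))
      ((b + a * Real.cos (Real.pi / 2 + κ * s) - ε * Real.sin (φ (Real.pi / 2 + κ * s))) * κ) s :=
    (hφ (Real.pi / 2 + κ * s)).comp s h1
  have h3 := (h2.sub ((Real.hasDerivAt_cos s).const_mul a)).sub_const ((b + 1) * Real.pi / 2)
  refine h3.congr_deriv ?_
  rw [sin_hf ham]
  have h4 : Real.cos (Real.pi / 2 + κ * s) = -(κ * Real.sin s) := by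
    rw [Real.cos_add, Real.cos_pi_div_two, Real.sin_pi_div_two]
    rcases hκ with rfl | rfl
    · simp
    · simp
  rw [h4]
  have h5 : κ * κ = 1 := by rcases hκ with rfl | rfl <;> norm_num
  linear_combination (-(a * Real.sin s)) * h5

/-- The displacement over half a period. -/
theorem osc_sign (b : ℝ) {ε : ℝ} (hε : 0 < ε) : ∃ a0 : ℝ, 0 < a0 ∧ ∀ a : ℝ, a0 ≤ a → ∀ m : ℤ,
    a + (b + 1) * Real.pi / 2 = m * Real.pi →
    0 < (-1) ^ m * (fl b a ε (Real.pi / 2) Real.pi - (Real.pi / 2 + b * Real.pi)) := by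
  have hpi := Real.pi_gt_three
  have hpi4 := Real.pi_le_four
  set K : ℝ := |b| + ε with hK
  have hK0 : 0 < K := by positivity
  set C1 : ℝ := 40 + 40 * ε + 30 * K with hC1
  set C2 : ℝ := 20 * (ε * C1) + 30 * K with hC2
  have hC1p : 0 < C1 := by positivity
  have hC2p : 0 < C2 := by positivity
  set e0 : ℝ := min (1 / 10) (1 / (51 * C2)) with he0
  have he0p : 0 < e0 := by positivity
  refine ⟨1 / e0 ^ 6, by positivity, fun a ha m ham => ?_⟩
  have hap : 0 < a := lt_of_lt_of_le (by positivity) ha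
  obtain ⟨e, hep, hea⟩ : ∃ e : ℝ, 0 < e ∧ a = 1 / e ^ 6 := by
    refine ⟨(1 / a) ^ ((1 : ℝ) / 6), by positivity, ?_⟩
    rw [← Real.rpow_natCast, ← Real.rpow_mul (by positivity)]
    norm_num
  have hee : e ≤ e0 := by
    by_contra hc
    push Not at hc
    have h1 : e0 ^ 6 < e ^ 6 := pow_lt_pow_left₀ hc he0p.le (by norm_num)
    have h2 : 1 / e ^ 6 < 1 / e0 ^ 6 := one_div_lt_one_div_of_lt (by positivity) h1
    rw [← hea] at h2
    linarith
  have he1 : e ≤ 1 / 10 := hee.trans (min_le_left _ _)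
  have he2 : e * (51 * C2) ≤ 1 := by
    have := hee.trans (min_le_right _ _)
    rwa [le_div_iff₀ (by positivity)] at this
  set d : ℝ := e ^ 2 with hd
  have hdp : 0 < d := by positivity
  have hd1 : d ≤ 1 := by rw [hd]; nlinarith
  have had : a = 1 / d ^ 3 := by rw [hea, hd]; ring_nf
  have hax : a = 1 / (e ^ 3) ^ 2 := by rw [hea]; ring_nf
  set φ := fl b a ε (Real.pi / 2) with hφd
  have hφ : Sol b a ε φ := fl_sol _ _ _ _
  have hφ0 : φ 0 = Real.pi / 2 := fl_zero _ _ _ _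
  set σ : ℝ := (-1) ^ m with hσ
  have hσ1 : |σ| = 1 := by
    rw [hσ, abs_zpow, abs_neg, abs_one, one_zpow]
  have hσ2 : σ * σ = 1 := by
    rw [← abs_mul_abs_self, hσ1]; norm_num
  set T : ℝ := ∫ s in (0:ℝ)..(Real.pi / 2), Real.sin (ph a s) with hT
  set I : ℝ → ℝ := fun κ => ∫ s in (0:ℝ)..(Real.pi / 2), Real.sin (hf b a φ κ s - ph a s) with hI
  have hpc := ph_cont a
  have hderiv : ∀ κ : ℝ, κ = 1 ∨ κ = -1 → ∀ s, HasDerivAt (hf b a φ κ)
      (κ * (b - ε * (σ * Real.sin (hf b a φ κ s - ph a s)))) s := fun κ hκ s => hf_deriv ham hφ hκ s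
  have hcont : ∀ κ : ℝ, κ = 1 ∨ κ = -1 → Continuous (hf b a φ κ) := fun κ hκ =>
    continuous_iff_continuousAt.2 fun s => (hderiv κ hκ s).continuousAt
  have hdb : ∀ κ : ℝ, κ = 1 ∨ κ = -1 → ∀ s, |κ * (b - ε * (σ * Real.sin (hf b a φ κ s - ph a s)))| ≤ K := by
    intro κ hκ s
    have h1 : |κ| = 1 := by rcases hκ with rfl | rfl <;> simp
    rw [abs_mul, h1, one_mul]
    refine (abs_sub _ _).trans ?_
    rw [abs_mul, abs_mul, hσ1, one_mul, abs_of_pos hε]
    have := Real.abs_sin_le_one (hf b a φ κ s - ph a s)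
    nlinarith
  have hftc : ∀ κ : ℝ, κ = 1 ∨ κ = -1 → hf b a φ κ (Real.pi / 2) - hf b a φ κ 0 =
      κ * (b * (Real.pi / 2) - ε * (σ * I κ)) := by
    intro κ hκ
    have hc := hcont κ hκ
    have h1 := intervalIntegral.integral_eq_sub_of_hasDerivAt (a := (0:ℝ)) (b := Real.pi / 2)
      (fun s _ => hderiv κ hκ s) (Continuous.intervalIntegrable (by fun_prop) _ _)
    rw [← h1, intervalIntegral.integral_const_mul, intervalIntegral.integral_sub
      (Continuous.intervalIntegrable (by fun_prop) _ _) (Continuous.intervalIntegrable (by fun_prop) _ _),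
      intervalIntegral.integral_const_mul, intervalIntegral.integral_const_mul,
      intervalIntegral.integral_const, smul_eq_mul]
    ring
  have hzero : ∀ κ : ℝ, hf b a φ κ 0 = φ (Real.pi / 2) - a - (b + 1) * Real.pi / 2 := by
    intro κ
    simp [hf]
  -- the value at the stationary point
  have hm : hf b a φ (-1) (Real.pi / 2) = -(b * (Real.pi / 2)) := by
    simp only [hf]
    rw [show Real.pi / 2 + -1 * (Real.pi / 2) = 0 by ring, hφ0, Real.cos_pi_div_two]
    ring
  have hp : hf b a φ 1 (Real.pi / 2) = φ Real.pi - (b + 1) * Real.pi / 2 := by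
    simp only [hf]
    rw [show Real.pi / 2 + 1 * (Real.pi / 2) = Real.pi by ring, Real.cos_pi_div_two]
    ring
  have hfm := hftc (-1) (Or.inr rfl)
  have hfp := hftc 1 (Or.inl rfl)
  rw [hm] at hfm
  rw [hp] at hfp
  set h0 : ℝ := φ (Real.pi / 2) - a - (b + 1) * Real.pi / 2 with hh0
  rw [hzero] at hfm hfp
  have hh0' : h0 = -(ε * (σ * I (-1))) := by linarith
  have hfin : φ Real.pi - (Real.pi / 2 + b * Real.pi) = -(ε * (σ * (I (-1) + I 1))) := by
    have : φ Real.pi = (b + 1) * Real.pi / 2 + h0 + 1 * (b * (Real.pi / 2) - ε * (σ * I 1)) := by linarith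
    rw [this, hh0']
    ring
  -- crude bounds
  have hIcrude : ∀ κ, |I κ| ≤ 2 := by
    intro κ
    have h1 := intervalIntegral.norm_integral_le_of_norm_le_const (a := (0:ℝ)) (b := Real.pi / 2) (C := 1)
      (f := fun s => Real.sin (hf b a φ κ s - ph a s)) (fun s _ => by
        rw [Real.norm_eq_abs]; exact Real.abs_sin_le_one _)
    rw [Real.norm_eq_abs, sub_zero, one_mul, abs_of_pos (by positivity : 0 < Real.pi / 2)] at h1
    exact h1.trans (by linarith)
  have habs0 : |h0| = ε * |I (-1)| := by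
    rw [hh0', abs_neg, abs_mul, abs_mul, hσ1, one_mul, abs_of_pos hε]
  have hcmp : ∀ κ : ℝ, κ = 1 ∨ κ = -1 → ∀ H : ℝ, |h0| ≤ H → |I κ + T| ≤ 20 * H * d + 30 * K * d ^ 2 := by
    intro κ hκ H hH
    have hc := hcont κ hκ
    have h1 := compare (hderiv κ hκ) (K := K) (H := H) (d := d) (hdb κ hκ) (by rw [hzero]; exact hH) hdp hd1
    rw [← had] at h1
    rw [intervalIntegral.integral_add (Continuous.intervalIntegrable (by fun_prop) _ _)
      (Continuous.intervalIntegrable (by fun_prop) _ _)] at h1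
    exact h1
  have hTb : |T| ≤ 40 * d := by
    have h1 := compare (h := fun _ => Real.pi) (h' := fun _ => 0) (fun s => hasDerivAt_const s _) (K := 0)
      (H := 4) (d := d) (fun _ => by simp) (by rw [abs_of_pos Real.pi_pos]; exact hpi4) hdp hd1
    rw [← had] at h1
    have h2 : ∀ s, Real.sin (Real.pi - ph a s) + Real.sin (ph a s) = 2 * Real.sin (ph a s) := by
      intro s
      rw [Real.sin_pi_sub]; ring
    simp_rw [h2] at h1
    rw [intervalIntegral.integral_const_mul, abs_mul, abs_of_pos (by norm_num : (0:ℝ) < 2)] at h1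
    have : |T| = |∫ s in (0:ℝ)..(Real.pi / 2), Real.sin (ph a s)| := rfl
    linarith
  have hI1 : |I (-1)| ≤ C1 * d := by
    have h1 := hcmp (-1) (Or.inr rfl) (2 * ε) (by
      rw [habs0]
      have := hIcrude (-1)
      nlinarith)
    have h2 : |I (-1)| ≤ |I (-1) + T| + |T| := by
      calc |I (-1)| = |(I (-1) + T) - T| := by congr 1; ring
        _ ≤ _ := abs_sub _ _
    have h3 : K * d ^ 2 ≤ K * d := by
      apply mul_le_mul_of_nonneg_left _ hK0.le
      nlinarith
    have h4 : C1 * d = 40 * d + 40 * ε * d + 30 * (K * d) := by rw [hC1]; ring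
    have h5 : 20 * (2 * ε) * d + 30 * K * d ^ 2 = 40 * ε * d + 30 * (K * d ^ 2) := by ring
    linarith
  have hH2 : |h0| ≤ ε * (C1 * d) := by
    rw [habs0]
    gcongr
  have hfine : ∀ κ : ℝ, κ = 1 ∨ κ = -1 → |I κ + T| ≤ C2 * d ^ 2 := by
    intro κ hκ
    refine (hcmp κ hκ _ hH2).trans (le_of_eq ?_)
    rw [hC2]; ring
  have hTlow : e ^ 3 / 50 ≤ T := by
    have h1 := main_lower (x := e ^ 3) (by positivity) (by
      calc e ^ 3 ≤ (1 / 10) ^ 3 := by gcongr
        _ ≤ 1 / 10 := by norm_num)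
    rw [← hax] at h1
    exact h1
  have f1 := hfine 1 (Or.inl rfl)
  have f2 := hfine (-1) (Or.inr rfl)
  have hsmall : C2 * d ^ 2 < e ^ 3 / 50 := by
    have h1 : C2 * d ^ 2 = (e * (51 * C2)) * (e ^ 3 / 51) := by rw [hd]; ring
    rw [h1]
    have h2 : 0 < e ^ 3 := by positivity
    have h3 : (e * (51 * C2)) * (e ^ 3 / 51) ≤ 1 * (e ^ 3 / 51) := by gcongr
    linarith
  have g1 := (abs_le.1 f1).2
  have g2 := (abs_le.1 f2).2
  rw [hfin]
  have : σ * -(ε * (σ * (I (-1) + I 1))) = ε * (σ * σ) * (-(I (-1) + I 1)) := by ring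
  rw [this, hσ2, mul_one]
  apply mul_pos hε
  linarith

end Pool.Agent.U375.JO
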