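import Pool.Agent.U375.JO.C
import Pool.Agent.H535R3.KI

/-!
# The heights of the adjacencies: a closed discrete set which is unbounded
-/

set_option autoImplicit false
open Set Filter Topology

namespace Pool.Agent.U375.JO

open H535R3

/-- The heights of the adjacencies (scaled coordinates). -/
def Adj (r : ℤ) (ε : ℝ) : Set ℝ :=
  {a | 0 < a ∧ ((r : ℝ), a) ∈ Ls r ε ∧ ∀ b', (b', a) ∈ Ls r ε → b' = r}

lemma Adj_ident {r : ℤ} {ε a : ℝ} (h : a ∈ Adj r ε) (x : ℝ) : P r a ε x = x + 2 * Real.pi * r :=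
  single_ident h.2.1 h.2.2 x

lemma Adj_of_ident {r : ℤ} {ε a : ℝ} (ha : 0 < a) (h : ∀ x, P r a ε x = x + 2 * Real.pi * r) :
    a ∈ Adj r ε := by
  have h1 := slice_of_rot h
  refine ⟨ha, ⟨0, h 0⟩, fun b' hb' => ?_⟩
  have h2 : ((b', a) : ℝ × ℝ) ∈ {q : ℝ × ℝ | q ∈ Ls r ε ∧ q.2 = a} := ⟨hb', rfl⟩
  rw [h1] at h2
  simp only [mem_singleton_iff, Prod.mk.injEq] at h2
  exact h2.1

lemma Adj_neg_sub {r : ℤ} {ε : ℝ} : Adj r ε ⊆ Adj (-r) ε := by
  rintro a ⟨h1, h2, h3⟩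
  refine ⟨h1, ?_, fun b' hb' => ?_⟩
  · have := Ls_neg h2
    push_cast
    exact this
  · have h4 := Ls_neg hb'
    rw [neg_neg] at h4
    have h5 := h3 _ h4
    push_cast
    linarith

lemma Adj_neg (r : ℤ) (ε : ℝ) : Adj (-r) ε = Adj r ε := by
  refine Subset.antisymm ?_ Adj_neg_sub
  have := Adj_neg_sub (r := -r) (ε := ε)
  rwa [neg_neg] at this

/-- From half a period to the period map. -/
lemma half_eq {r : ℤ} {a ε : ℝ} : fl r a ε (P r a ε (Real.pi / 2)) (-Real.pi) = fl r a ε (Real.pi / 2) Real.pi := by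
  have := fl_shift r a ε (Real.pi / 2) (-Real.pi)
  rw [show -Real.pi + 2 * Real.pi = Real.pi by ring] at this
  exact this.symm

lemma half_add {r : ℤ} {a ε : ℝ} : fl r a ε (Real.pi / 2 + 2 * Real.pi * r) (-Real.pi) =
    Real.pi - fl r a ε (Real.pi / 2) Real.pi + 2 * Real.pi * r := by
  rw [fl_add, sym_sol]

lemma sign_up {r : ℤ} {a ε : ℝ} (h : Real.pi / 2 + r * Real.pi < fl r a ε (Real.pi / 2) Real.pi) :
    Real.pi / 2 + 2 * Real.pi * r < P r a ε (Real.pi / 2) := by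
  by_contra hc
  push Not at hc
  have h1 : fl r a ε (P r a ε (Real.pi / 2)) (-Real.pi) ≤
      fl r a ε (Real.pi / 2 + 2 * Real.pi * r) (-Real.pi) := by
    rcases hc.lt_or_eq with h2 | h2
    · exact (fl_mono _ _ _ h2 _).le
    · rw [h2]
  rw [half_eq, half_add] at h1
  linarith

lemma sign_down {r : ℤ} {a ε : ℝ} (h : fl r a ε (Real.pi / 2) Real.pi < Real.pi / 2 + r * Real.pi) :
    P r a ε (Real.pi / 2) < Real.pi / 2 + 2 * Real.pi * r := by
  by_contra hc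
  push Not at hc
  have h1 : fl r a ε (Real.pi / 2 + 2 * Real.pi * r) (-Real.pi) ≤
      fl r a ε (P r a ε (Real.pi / 2)) (-Real.pi) := by
    rcases hc.lt_or_eq with h2 | h2
    · exact (fl_mono _ _ _ h2 _).le
    · rw [h2]
  rw [half_eq, half_add] at h1
  linarith

/-- There are symmetric periodic solutions for arbitrarily large `a`. -/
lemma exists_sym (r : ℤ) {ε : ℝ} (hε : 0 < ε) (A0 : ℝ) :
    ∃ a, A0 ≤ a ∧ P r a ε (Real.pi / 2) = Real.pi / 2 + 2 * Real.pi * r := by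
  obtain ⟨a0, ha0, h⟩ := osc_sign (r : ℝ) hε
  have hpi := Real.pi_pos
  obtain ⟨k, hk⟩ := exists_nat_gt ((max A0 a0 + (r + 1) * Real.pi / 2) / (2 * Real.pi))
  rw [div_lt_iff₀ (by positivity)] at hk
  set a1 : ℝ := ((2 * k : ℤ) : ℝ) * Real.pi - (r + 1) * Real.pi / 2 with ha1
  set a2 : ℝ := ((2 * k + 1 : ℤ) : ℝ) * Real.pi - (r + 1) * Real.pi / 2 with ha2
  have e1 : a1 + (r + 1) * Real.pi / 2 = ((2 * k : ℤ) : ℝ) * Real.pi := by rw [ha1]; ring
  have e2 : a2 + (r + 1) * Real.pi / 2 = ((2 * k + 1 : ℤ) : ℝ) * Real.pi := by rw [ha2]; ring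
  have l1 : max A0 a0 ≤ a1 := by
    rw [ha1]
    push_cast
    linarith
  have l2 : a1 ≤ a2 := by
    rw [ha1, ha2]
    push_cast
    linarith
  have g1 := h a1 ((le_max_right _ _).trans l1) (2 * k) e1
  have g2 := h a2 (((le_max_right _ _).trans l1).trans l2) (2 * k + 1) e2
  have s1 : ((-1 : ℝ)) ^ (2 * (k : ℤ)) = 1 := by
    rw [zpow_mul]; norm_num
  have s2 : ((-1 : ℝ)) ^ (2 * (k : ℤ) + 1) = -1 := by
    rw [zpow_add₀ (by norm_num), s1]; norm_num
  rw [s1, one_mul] at g1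
  rw [s2] at g2
  have p1 := sign_up (r := r) (a := a1) (ε := ε) (by linarith)
  have p2 := sign_down (r := r) (a := a2) (ε := ε) (by linarith)
  have hc : Continuous fun a : ℝ => P r a ε (Real.pi / 2) :=
    continuous_P.comp (f := fun a : ℝ => ((r : ℝ), a, ε, Real.pi / 2)) (by fun_prop)
  obtain ⟨a, ha, hPa⟩ := intermediate_value_Icc' l2 hc.continuousOn ⟨p2.le, p1.le⟩
  exact ⟨a, (le_max_left _ _).trans (l1.trans ha.1), hPa⟩

lemma ident_of_sym_pos {n : ℕ} {ε a : ℝ} (hε : 0 < ε) (ha0 : 0 < a) (ha : 2 * MM n (ε / 2) < a)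
    (h : P (n + 1) a ε (Real.pi / 2) = Real.pi / 2 + 2 * Real.pi * ((n + 1 : ℤ) : ℝ)) (x : ℝ) :
    P (n + 1) a ε x = x + 2 * Real.pi * ((n + 1 : ℤ) : ℝ) := by
  by_contra hc
  have hne : ¬ ∀ x, P (n + 1) a ε x = x + 2 * Real.pi * ((n + 1 : ℤ) : ℝ) := fun h1 => hc (h1 x)
  have h1 : Simple n ε a := frontier_of_parabolic h (Kx_sym h) hne
  have h2 := simple_unique hε ha0 (mul_pos two_pos (MM_pos n (by positivity))) h1 (simple_MM n hε)
  linarith

lemma ident_of_sym_zero {ε a : ℝ} (h : P 0 a ε (Real.pi / 2) = Real.pi / 2) (x : ℝ) : P 0 a ε x = x := by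
  have h0 : P 0 a ε (Real.pi / 2) = Real.pi / 2 + 2 * Real.pi * ((0 : ℤ) : ℝ) := by rw [h]; simp
  have hpi : fl 0 a ε (Real.pi / 2) Real.pi = Real.pi / 2 := by
    have h1 := fl_per h0 (-Real.pi)
    rw [show -Real.pi + 2 * Real.pi = Real.pi by ring, sym_sol] at h1
    push_cast at h1
    linarith
  have hs := fl_sol 0 a ε (Real.pi / 2)
  have hψ : Sol 0 a ε (fun t => -(fl 0 a ε (Real.pi / 2) (t + Real.pi))) := by
    intro t
    have h1 := ((hs (t + Real.pi)).comp_add_const t Real.pi).neg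
    refine h1.congr_deriv ?_
    simp only [Real.sin_neg, Real.cos_add_pi]; ring
  have h2 := congrFun hψ.eq_fl (2 * Real.pi)
  simp only [zero_add, hpi] at h2
  have h3 : P 0 a ε (-(Real.pi / 2)) = -(Real.pi / 2) + 2 * Real.pi * ((0 : ℤ) : ℝ) := by
    rw [P, ← h2, add_comm, fl_per h0, hpi]
    push_cast; ring
  have hne : Real.sin ((-(Real.pi / 2) - Real.pi / 2) / 2) ≠ 0 := by
    rw [show (-(Real.pi / 2) - Real.pi / 2) / 2 = -(Real.pi / 2) by ring, Real.sin_neg, Real.sin_pi_div_two]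
    norm_num
  rcases dich h0 h3 hne with ⟨h4, -⟩ | ⟨h4, -⟩
  · have := h4 x
    rw [this]; simp
  · exact absurd (Kx_sym h0) h4

/-- There are adjacencies of arbitrarily large height. -/
theorem Adj_unbounded (r : ℤ) {ε : ℝ} (hε : 0 < ε) (A0 : ℝ) : ∃ a ∈ Adj r ε, A0 ≤ a := by
  have key : ∀ k : ℕ, ∃ a ∈ Adj k ε, A0 ≤ a := by
    intro k
    rcases Nat.eq_zero_or_pos k with rfl | hk
    · obtain ⟨a, ha, h⟩ := exists_sym 0 hε (max A0 1)
      have h0 : 0 < a := lt_of_lt_of_le one_pos ((le_max_right _ _).trans ha)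
      push_cast at h
      rw [mul_zero, add_zero] at h
      refine ⟨a, Adj_of_ident h0 fun x => ?_, (le_max_left _ _).trans ha⟩
      push_cast
      rw [mul_zero, add_zero]
      exact ident_of_sym_zero h x
    · obtain ⟨n, rfl⟩ : ∃ n, k = n + 1 := ⟨k - 1, by omega⟩
      have hM := MM_pos n (δ := ε / 2) (by positivity)
      obtain ⟨a, ha, h⟩ := exists_sym ((n + 1 : ℕ) : ℤ) hε (max A0 (2 * MM n (ε / 2) + 1))
      have h1 : 2 * MM n (ε / 2) + 1 ≤ a := (le_max_right _ _).trans ha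
      have h0 : 0 < a := by linarith
      have e : (((n + 1 : ℕ) : ℤ) : ℝ) = (n : ℝ) + 1 := by push_cast; ring
      have e' : ((n + 1 : ℤ) : ℝ) = (n : ℝ) + 1 := by push_cast; ring
      rw [e] at h
      refine ⟨a, Adj_of_ident h0 fun x => ?_, (le_max_left _ _).trans ha⟩
      rw [e]
      have := ident_of_sym_pos (n := n) hε h0 (by linarith) (by rw [e']; exact h) x
      rw [e'] at this
      exact this
  rcases le_total 0 r with hr | hr
  · obtain ⟨k, rfl⟩ : ∃ k : ℕ, r = k := ⟨r.toNat, by omega⟩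
    exact key k
  · obtain ⟨k, hk⟩ : ∃ k : ℕ, -r = k := ⟨(-r).toNat, by omega⟩
    have := key k
    rw [← hk, Adj_neg] at this
    exact this

lemma Adj_low {r : ℤ} {ε a : ℝ} (hε : 0 < ε) (h : a ∈ Adj r ε) : ε ≤ a :=
  (main_int r hε h.1 h.2.1 h.2.2 le_rfl h.2.1).1

lemma Adj_closed (r : ℤ) {ε : ℝ} (hε : 0 < ε) : IsClosed (Adj r ε) := by
  have h1 : Adj r ε = {a | ε ≤ a} ∩ ⋂ x : ℝ, {a : ℝ | P r a ε x = x + 2 * Real.pi * r} := by
    ext a
    simp only [mem_inter_iff, mem_iInter, mem_ofPred_eq]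
    constructor
    · intro h
      exact ⟨Adj_low hε h, fun x => Adj_ident h x⟩
    · rintro ⟨h1, h2⟩
      exact Adj_of_ident (lt_of_lt_of_le hε h1) h2
  rw [h1]
  refine IsClosed.inter (isClosed_le continuous_const continuous_id) (isClosed_iInter fun x => ?_)
  exact isClosed_eq (continuous_P.comp (f := fun a : ℝ => ((r : ℝ), a, ε, x)) (by fun_prop)) continuous_const

/-- At an adjacency the symmetric solution stops to be periodic when `a` is changed. -/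
lemma isolated_nat {k : ℕ} {ε a σ : ℝ} (hε : 0 < ε) (hσ : σ ≠ 0) (h : a ∈ Adj k ε) :
    ∀ᶠ s in 𝓝[>] (0 : ℝ), a + σ * s ∉ Adj k ε := by
  have ha := h.1
  have hall := Adj_ident h
  have hCc := Cc_per (hall (Real.pi / 2))
  have hI : ∫ u in (0:ℝ)..(2 * Real.pi), Real.cos u * Real.exp (ε * Cc (fl ((k : ℤ) : ℝ) a ε (Real.pi / 2)) u) ≠ 0 := by
    intro hI
    have hI' : ∫ t in (-Real.pi)..Real.pi, Real.cos t *
        Real.exp (ε * Cc (fl ((k : ℤ) : ℝ) a ε (Real.pi / 2)) t) = 0 := by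
      rw [shift_int, hI]
      intro t
      rw [Real.cos_add_two_pi, hCc.2]
    obtain ⟨μ, rfl⟩ : ∃ μ, a = 2 * μ := ⟨a / 2, by ring⟩
    obtain ⟨e, rfl⟩ : ∃ e, ε = 2 * e := ⟨ε / 2, by ring⟩
    have hμ0 : 0 < μ := by linarith
    have he0 : 0 < e := by linarith
    rcases Nat.eq_zero_or_pos k with h0 | h0
    · subst h0
      have e0 : (((0 : ℕ) : ℤ) : ℝ) = 0 := by simp
      rw [e0] at hI'
      refine Ic_ne0 hμ0 he0 (fun x => ?_) hI'
      have := hall x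
      rw [e0, mul_zero, add_zero] at this
      exact this
    · obtain ⟨n, rfl⟩ : ∃ n, k = n + 1 := ⟨k - 1, by omega⟩
      have e0 : (((n + 1 : ℕ) : ℤ) : ℝ) = (n : ℝ) + 1 := by push_cast; ring
      rw [e0] at hI'
      refine Ic_ne (n := n) hμ0 he0 (fun x => ?_) hI'
      have := hall x
      rw [e0] at this
      rw [this]
      push_cast
      ring
  have hlin : ∫ u in (0:ℝ)..(2 * Real.pi), (0 + σ * Real.cos u) *
      Real.exp (ε * Cc (fl ((k : ℤ) : ℝ) a ε (Real.pi / 2)) u) =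
      σ * ∫ u in (0:ℝ)..(2 * Real.pi), Real.cos u * Real.exp (ε * Cc (fl ((k : ℤ) : ℝ) a ε (Real.pi / 2)) u) := by
    rw [← intervalIntegral.integral_const_mul]
    congr 1
    funext u
    ring
  rcases lt_or_gt_of_ne (mul_ne_zero hσ hI) with h1 | h1
  · have h2 := push_down (b := ((k : ℤ) : ℝ)) (a := a) (ε := ε) (x := Real.pi / 2) (η := 0) (σ := σ) hCc.1
      (by rw [hlin]; exact h1)
    filter_upwards [h2] with s hs hs2
    rw [zero_mul, add_zero, hall, Adj_ident hs2] at hs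
    exact lt_irrefl _ hs
  · have h2 := push_up (b := ((k : ℤ) : ℝ)) (a := a) (ε := ε) (x := Real.pi / 2) (η := 0) (σ := σ) hCc.1
      (by rw [hlin]; exact h1)
    filter_upwards [h2] with s hs hs2
    rw [zero_mul, add_zero, hall, Adj_ident hs2] at hs
    exact lt_irrefl _ hs

lemma isolated {r : ℤ} {ε a σ : ℝ} (hε : 0 < ε) (hσ : σ ≠ 0) (h : a ∈ Adj r ε) :
    ∀ᶠ s in 𝓝[>] (0 : ℝ), a + σ * s ∉ Adj r ε := by
  rcases le_total 0 r with hr | hr
  · obtain ⟨k, rfl⟩ : ∃ k : ℕ, r = k := ⟨r.toNat, by omega⟩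
    exact isolated_nat hε hσ h
  · obtain ⟨k, hk⟩ : ∃ k : ℕ, -r = k := ⟨(-r).toNat, by omega⟩
    rw [← Adj_neg, hk] at h ⊢
    exact isolated_nat hε hσ h

/-- one-sided isolation in terms of intervals -/
lemma gap_right {r : ℤ} {ε a : ℝ} (hε : 0 < ε) (h : a ∈ Adj r ε) :
    ∃ δ, 0 < δ ∧ ∀ a' ∈ Adj r ε, a < a' → a + δ ≤ a' := by
  have h1 := isolated (σ := 1) hε one_ne_zero h
  rw [eventually_nhdsWithin_iff, Metric.eventually_nhds_iff] at h1
  obtain ⟨δ, hδ, h2⟩ := h1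
  refine ⟨δ, hδ, fun a' ha' hlt => ?_⟩
  by_contra hc
  push Not at hc
  refine h2 (y := a' - a) ?_ ?_ ?_
  · rw [Real.dist_eq, sub_zero, abs_of_pos (by linarith)]
    linarith
  · exact sub_pos.2 hlt
  · rw [one_mul, show a + (a' - a) = a' by ring]
    exact ha'

lemma gap_left {r : ℤ} {ε a : ℝ} (hε : 0 < ε) (h : a ∈ Adj r ε) :
    ∃ δ, 0 < δ ∧ ∀ a' ∈ Adj r ε, a' < a → a' + δ ≤ a := by
  have h1 := isolated (σ := -1) hε (by norm_num) h
  rw [eventually_nhdsWithin_iff, Metric.eventually_nhds_iff] at h1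
  obtain ⟨δ, hδ, h2⟩ := h1
  refine ⟨δ, hδ, fun a' ha' hlt => ?_⟩
  by_contra hc
  push Not at hc
  refine h2 (y := a - a') ?_ ?_ ?_
  · rw [Real.dist_eq, sub_zero, abs_of_pos (by linarith)]
    linarith
  · exact sub_pos.2 hlt
  · rw [show a + -1 * (a - a') = a' by ring]
    exact ha'

end Pool.Agent.U375.JO
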