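import Mathlib

/-!
# Enumeration of a closed discrete unbounded set of positive numbers
-/

set_option autoImplicit false
open Set Filter Topology

namespace Pool.Agent.U375.JO

/-- the next element -/
lemma exists_next {S : Set ℝ} (hc : IsClosed S) (hu : ∀ A : ℝ, ∃ a ∈ S, A ≤ a)
    (hr : ∀ a ∈ S, ∃ δ, 0 < δ ∧ ∀ a' ∈ S, a < a' → a + δ ≤ a') (x : ℝ) :
    ∃ y ∈ S, x < y ∧ ∀ z ∈ S, x < z → y ≤ z := by
  set T : Set ℝ := S ∩ Ioi x with hT
  have hne : T.Nonempty := by
    obtain ⟨a, ha, hxa⟩ := hu (x + 1)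
    exact ⟨a, ha, by simp only [mem_Ioi]; linarith⟩
  have hbd : BddBelow T := ⟨x, fun z hz => le_of_lt hz.2⟩
  have h1 : sInf T ∈ closure T := csInf_mem_closure hne hbd
  have h2 : sInf T ∈ S := hc.closure_subset_iff.2 inter_subset_left h1
  have h3 : x ≤ sInf T := le_csInf hne fun z hz => le_of_lt hz.2
  have h4 : x < sInf T := by
    rcases h3.lt_or_eq with h | h
    · exact h
    · exfalso
      obtain ⟨δ, hδ, h5⟩ := hr _ h2
      rw [← h] at h5
      have h6 : x + δ ≤ sInf T := le_csInf hne fun z hz => h5 z hz.1 hz.2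
      rw [← h] at h6
      linarith
  exact ⟨sInf T, h2, h4, fun z hz hxz => csInf_le hbd ⟨hz, hxz⟩⟩

theorem enumerate {S : Set ℝ} (hp : ∀ a ∈ S, 0 < a) (hc : IsClosed S) (hu : ∀ A : ℝ, ∃ a ∈ S, A ≤ a)
    (hr : ∀ a ∈ S, ∃ δ, 0 < δ ∧ ∀ a' ∈ S, a < a' → a + δ ≤ a')
    (hl : ∀ a ∈ S, ∃ δ, 0 < δ ∧ ∀ a' ∈ S, a' < a → a' + δ ≤ a) :
    ∃ α : ℕ → ℝ, StrictMono α ∧ Tendsto α atTop atTop ∧ range α = S := by
  choose nx h1 h2 h3 using exists_next hc hu hr
  set α : ℕ → ℝ := fun n => Nat.rec (nx 0) (fun _ y => nx y) n with hα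
  have hs : ∀ n, α (n + 1) = nx (α n) := fun n => rfl
  have h0 : α 0 = nx 0 := rfl
  have hmem : ∀ n, α n ∈ S := by
    intro n
    cases n with
    | zero => exact h1 0
    | succ n => rw [hs]; exact h1 _
  have hmono : StrictMono α := strictMono_nat_of_lt_succ fun n => by rw [hs]; exact h2 _
  have hrange : range α = S := by
    apply Subset.antisymm
    · rintro _ ⟨n, rfl⟩
      exact hmem n
    · intro s hs'
      by_contra hcon
      have hlt : ∀ n, α n < s := by
        intro n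
        induction n with
        | zero =>
          have : α 0 ≤ s := by rw [h0]; exact h3 0 s hs' (hp s hs')
          exact lt_of_le_of_ne this fun h => hcon ⟨0, h⟩
        | succ n ih =>
          have : α (n + 1) ≤ s := by rw [hs]; exact h3 _ s hs' ih
          exact lt_of_le_of_ne this fun h => hcon ⟨n + 1, h⟩
      have hbd : BddAbove (range α) := ⟨s, by rintro _ ⟨n, rfl⟩; exact (hlt n).le⟩
      have hlim := tendsto_atTop_ciSup hmono.monotone hbd
      set L := ⨆ n, α n with hL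
      have hLS : L ∈ S := hc.mem_of_tendsto hlim (Eventually.of_forall hmem)
      obtain ⟨δ, hδ, h4⟩ := hl L hLS
      have h5 : ∀ n, α n + δ ≤ L := fun n =>
        h4 _ (hmem n) ((hmono (Nat.lt_succ_self n)).trans_le (le_ciSup hbd (n + 1)))
      have h6 : L ≤ L - δ := ciSup_le fun n => by linarith [h5 n]
      linarith
  refine ⟨α, hmono, ?_, hrange⟩
  refine tendsto_atTop_atTop_of_monotone hmono.monotone fun b => ?_
  obtain ⟨a, ha, hb⟩ := hu b
  rw [← hrange] at ha
  obtain ⟨n, rfl⟩ := ha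
  exact ⟨n, hb⟩

end Pool.Agent.U375.JO
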