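import Pool.Agent.H535R3.KI

/-!
# The phase-lock area as the strip between two continuous functions (scaled coordinates)
-/

set_option autoImplicit false
open Set Filter Topology

namespace Pool.Agent.U375.JO

open H535R3

lemma P_bound (b a : ℝ) {ε : ℝ} (hε : 0 ≤ ε) (x : ℝ) : |P b a ε x - x - 2 * Real.pi * b| ≤ ε * (2 * Real.pi) := by
  have hd : ∀ t ∈ Icc (0 : ℝ) (2 * Real.pi), HasDerivWithinAt (fun t => fl b a ε x t - b * t - a * Real.sin t)
      (-(ε * Real.sin (fl b a ε x t))) (Icc (0 : ℝ) (2 * Real.pi)) t := by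
    intro t _
    have := ((fl_sol b a ε x t).sub ((hasDerivAt_id t).const_mul b)).sub ((Real.hasDerivAt_sin t).const_mul a)
    refine (this.congr_deriv ?_).hasDerivWithinAt
    ring
  have h := Convex.norm_image_sub_le_of_norm_hasDerivWithin_le (C := ε)
    (x := (0 : ℝ)) (y := 2 * Real.pi) hd (fun t _ => by
      rw [Real.norm_eq_abs, abs_neg, abs_mul, abs_of_nonneg hε]
      have := Real.abs_sin_le_one (fl b a ε x t)
      nlinarith) (convex_Icc _ _) ⟨le_rfl, Real.two_pi_pos.le⟩ ⟨Real.two_pi_pos.le, le_rfl⟩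
  rw [Real.norm_eq_abs, Real.norm_eq_abs, fl_zero, Real.sin_two_pi, Real.sin_zero, sub_zero,
    abs_of_pos Real.two_pi_pos] at h
  refine le_trans (le_of_eq ?_) h
  congr 1
  rw [P]
  ring

/-- the slice of height `a` -/
def Sl (r : ℤ) (ε a : ℝ) : Set ℝ := {b | (b, a) ∈ Ls r ε}

lemma cont_b (a ε x : ℝ) : Continuous fun b : ℝ => P b a ε x :=
  continuous_P.comp (f := fun b : ℝ => (b, a, ε, x)) (by fun_prop)

lemma cont_a (b ε x : ℝ) : Continuous fun a : ℝ => P b a ε x :=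
  continuous_P.comp (f := fun a : ℝ => (b, a, ε, x)) (by fun_prop)

lemma Sl_bounds {r : ℤ} {ε a b : ℝ} (hε : 0 ≤ ε) (h : b ∈ Sl r ε a) : r - ε ≤ b ∧ b ≤ r + ε := by
  obtain ⟨x, hx⟩ := h
  simp only at hx
  have h1 := P_bound b a hε x
  rw [hx, abs_le] at h1
  have hpi := Real.two_pi_pos
  constructor <;> by_contra hc <;> push Not at hc
  · have : 2 * Real.pi * b < 2 * Real.pi * (r - ε) := by gcongr
    linarith [h1.2]
  · have : 2 * Real.pi * (r + ε) < 2 * Real.pi * b := by gcongr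
    linarith [h1.1]

lemma Sl_nonempty (r : ℤ) {ε : ℝ} (hε : 0 ≤ ε) (a : ℝ) : (Sl r ε a).Nonempty := by
  have h1 := abs_le.1 (P_bound (r - ε) a hε 0)
  have h2 := abs_le.1 (P_bound (r + ε) a hε 0)
  obtain ⟨b, hb⟩ := mem_range_of_exists_le_of_exists_ge (cont_b a ε 0) (c := 0 + 2 * Real.pi * r)
    ⟨r - ε, by linarith [h1.2]⟩ ⟨r + ε, by linarith [h2.1]⟩
  exact ⟨b, 0, hb⟩

lemma Sl_closed (r : ℤ) (ε a : ℝ) : IsClosed (Sl r ε a) :=
  (isClosed_Ls r ε).preimage (f := fun b : ℝ => ((b, a) : ℝ × ℝ)) (by fun_prop)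

lemma Sl_conn {r : ℤ} {ε a b1 b2 b : ℝ} (h1 : b1 ∈ Sl r ε a) (h2 : b2 ∈ Sl r ε a) (hb1 : b1 ≤ b) (hb2 : b ≤ b2) :
    b ∈ Sl r ε a := by
  obtain ⟨x1, hx1⟩ := h1
  obtain ⟨x2, hx2⟩ := h2
  simp only at hx1 hx2
  have l1 : x1 + 2 * Real.pi * r ≤ P b a ε x1 := by
    rw [← hx1]; exact P_le_of_b hb1
  have l2 : P b a ε x2 ≤ x2 + 2 * Real.pi * r := by
    rw [← hx2]; exact P_le_of_b hb2
  exact mem_Ls_of (q := (b, a)) l1 l2

/-- the right end of the slice -/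
noncomputable def gP (r : ℤ) (ε a : ℝ) : ℝ := sSup (Sl r ε a)

lemma Sl_bdd {r : ℤ} {ε : ℝ} (hε : 0 ≤ ε) (a : ℝ) : BddAbove (Sl r ε a) := ⟨r + ε, fun _ hb => (Sl_bounds hε hb).2⟩

lemma gP_mem (r : ℤ) {ε : ℝ} (hε : 0 ≤ ε) (a : ℝ) : gP r ε a ∈ Sl r ε a :=
  (Sl_closed r ε a).csSup_mem (Sl_nonempty r hε a) (Sl_bdd hε a)

lemma le_gP {r : ℤ} {ε a b : ℝ} (hε : 0 ≤ ε) (h : b ∈ Sl r ε a) : b ≤ gP r ε a := le_csSup (Sl_bdd hε a) h

/-- the left end of the slice -/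
noncomputable def gM (r : ℤ) (ε a : ℝ) : ℝ := -gP (-r) ε a

lemma Sl_neg {r : ℤ} {ε a b : ℝ} (h : b ∈ Sl r ε a) : -b ∈ Sl (-r) ε a := Ls_neg h

lemma gM_mem (r : ℤ) {ε : ℝ} (hε : 0 ≤ ε) (a : ℝ) : gM r ε a ∈ Sl r ε a := by
  have := Sl_neg (gP_mem (-r) hε a)
  rwa [neg_neg] at this

lemma gM_le {r : ℤ} {ε a b : ℝ} (hε : 0 ≤ ε) (h : b ∈ Sl r ε a) : gM r ε a ≤ b := by
  have := le_gP hε (Sl_neg h)
  unfold gM
  linarith

lemma mem_iff {r : ℤ} {ε a b : ℝ} (hε : 0 ≤ ε) : (b, a) ∈ Ls r ε ↔ gM r ε a ≤ b ∧ b ≤ gP r ε a :=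
  ⟨fun h => ⟨gM_le hε h, le_gP hε h⟩, fun h => Sl_conn (gM_mem r hε a) (gP_mem r hε a) h.1 h.2⟩

lemma gM_le_gP (r : ℤ) {ε : ℝ} (hε : 0 ≤ ε) (a : ℝ) : gM r ε a ≤ gP r ε a := gM_le hε (gP_mem r hε a)

lemma gP_cont (r : ℤ) {ε : ℝ} (hε : 0 ≤ ε) : Continuous (gP r ε) := by
  rw [continuous_iff_continuousAt]
  intro a0
  rw [ContinuousAt, tendsto_order]
  constructor
  · intro c hc
    obtain ⟨x0, hx0⟩ := gP_mem r hε a0
    simp only at hx0
    set b := (c + gP r ε a0) / 2 with hb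
    have h1 : P b a0 ε x0 < x0 + 2 * Real.pi * r := by
      rw [← hx0]; exact P_lt_of_b (by rw [hb]; linarith)
    filter_upwards [(cont_a b ε x0).continuousAt.eventually (gt_mem_nhds h1)] with a ha
    by_contra hcon
    push Not at hcon
    have h2 := right_of (b := b) (gP_mem r hε a) (by rw [hb]; linarith) (fun h3 => by
      have := le_gP hε h3
      rw [hb] at this
      linarith) x0
    exact lt_asymm ha h2
  · intro c hc
    have hn : (c, a0) ∉ Ls r ε := fun h => by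
      have := le_gP hε h
      linarith
    have h1 := right_of (gP_mem r hε a0) hc hn 0
    have h2 : ∀ᶠ a in 𝓝 a0, (c, a) ∉ Ls r ε := by
      have hcont : Continuous fun a : ℝ => ((c, a) : ℝ × ℝ) := by fun_prop
      exact hcont.continuousAt.eventually ((isClosed_Ls r ε).isOpen_compl.mem_nhds hn)
    filter_upwards [h2, (cont_a c ε 0).continuousAt.eventually (lt_mem_nhds h1)] with a ha1 ha2
    by_contra hcon
    push Not at hcon
    rcases hcon.lt_or_eq with h3 | h3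
    · have h4 := left_of (b := c) (gP_mem r hε a) h3 ha1 0
      exact lt_asymm ha2 h4
    · rw [h3] at ha1
      exact ha1 (gP_mem r hε a)

lemma gM_cont (r : ℤ) {ε : ℝ} (hε : 0 ≤ ε) : Continuous (gM r ε) := (gP_cont (-r) hε).neg

end Pool.Agent.U375.JO
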