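import Mathlib

/-!
# The garland: a strip between two continuous functions which touch at a sequence of heights
-/

set_option autoImplicit false
open Set Filter Topology

namespace Pool.Agent.U375.JO

/-- the strip between two functions -/
def Strip (g h : ℝ → ℝ) : Set (ℝ × ℝ) := {p | g p.2 ≤ p.1 ∧ p.1 ≤ h p.2}

/-- lower end of the `k`-th interval -/
def lo (α : ℕ → ℝ) : ℕ → ℝ
  | 0 => 0
  | k + 1 => α k

/-- the `k`-th interval -/
def Jk (α : ℕ → ℝ) : ℕ → Set ℝ
  | 0 => {x | 0 ≤ x ∧ x < α 0}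
  | k + 1 => {x | α k < x ∧ x < α (k + 1)}

/-- the `k`-th component -/
def Ck (g h : ℝ → ℝ) (α : ℕ → ℝ) (k : ℕ) : Set (ℝ × ℝ) := {p | p ∈ Strip g h ∧ p.2 ∈ Jk α k}

/-- parametrization of the strip -/
def Fm (g h : ℝ → ℝ) (q : ℝ × ℝ) : ℝ × ℝ := (g q.1 + q.2 * (h q.1 - g q.1), q.1)

lemma Fm_cont {g h : ℝ → ℝ} (hg : Continuous g) (hh : Continuous h) : Continuous (Fm g h) := by
  unfold Fm
  fun_prop

lemma Fm_mem {g h : ℝ → ℝ} (hgh : ∀ x, g x ≤ h x) {x s : ℝ} (h0 : 0 ≤ s) (h1 : s ≤ 1) :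
    Fm g h (x, s) ∈ Strip g h := by
  have := hgh x
  have h2 : 0 ≤ s * (h x - g x) := mul_nonneg h0 (by linarith)
  have h3 : s * (h x - g x) ≤ 1 * (h x - g x) := mul_le_mul_of_nonneg_right h1 (by linarith)
  simp only [Strip, Fm, mem_ofPred_eq]
  constructor <;> linarith

lemma exists_Fm {g h : ℝ → ℝ} {p : ℝ × ℝ} (hp : p ∈ Strip g h) : ∃ s, 0 ≤ s ∧ s ≤ 1 ∧ Fm g h (p.2, s) = p := by
  obtain ⟨h1, h2⟩ := hp
  rcases (h1.trans h2).lt_or_eq with h3 | h3
  · have h4 : 0 < h p.2 - g p.2 := by linarith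
    refine ⟨(p.1 - g p.2) / (h p.2 - g p.2), div_nonneg (by linarith) h4.le, ?_, ?_⟩
    · rw [div_le_one h4]; linarith
    · simp only [Fm]
      rw [div_mul_cancel₀ _ h4.ne']
      ext <;> simp
  · refine ⟨0, le_rfl, zero_le_one, ?_⟩
    simp only [Fm]
    ext
    · simp only
      linarith
    · rfl

lemma Jk_sub (α : ℕ → ℝ) (k : ℕ) : Jk α k ⊆ Icc (lo α k) (α k) := by
  cases k with
  | zero => exact fun x hx => ⟨hx.1, hx.2.le⟩
  | succ k => exact fun x hx => ⟨hx.1.le, hx.2.le⟩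

lemma Ioo_sub_Jk (α : ℕ → ℝ) (k : ℕ) : Ioo (lo α k) (α k) ⊆ Jk α k := by
  cases k with
  | zero => exact fun x hx => ⟨hx.1.le, hx.2⟩
  | succ k => exact fun x hx => ⟨hx.1, hx.2⟩

lemma lo_lt {α : ℕ → ℝ} (hα : StrictMono α) (h0 : 0 < α 0) (k : ℕ) : lo α k < α k := by
  cases k with
  | zero => exact h0
  | succ k => exact hα (Nat.lt_succ_self k)

lemma lo_nonneg {α : ℕ → ℝ} (hα : StrictMono α) (h0 : 0 < α 0) (k : ℕ) : 0 ≤ lo α k := by
  cases k with
  | zero => exact le_rfl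
  | succ k => exact h0.le.trans (hα.monotone (Nat.zero_le k))

lemma Jk_ord (α : ℕ → ℝ) (k : ℕ) : OrdConnected (Jk α k) := by
  constructor
  cases k with
  | zero => exact fun x hx y hy z hz => ⟨hx.1.trans hz.1, hz.2.trans_lt hy.2⟩
  | succ k => exact fun x hx y hy z hz => ⟨hx.1.trans_le hz.1, hz.2.trans_lt hy.2⟩

/-- a number in the `k`-th interval is not one of the separating heights -/
lemma Jk_not {α : ℕ → ℝ} (hα : StrictMono α) {k : ℕ} {x : ℝ} (hx : x ∈ Jk α k) : x ∉ range α := by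
  rintro ⟨j, rfl⟩
  cases k with
  | zero => exact absurd hx.2 (not_lt.2 (hα.monotone (Nat.zero_le j)))
  | succ k =>
    have h1 := hα.lt_iff_lt.1 hx.1
    have h2 := hα.lt_iff_lt.1 hx.2
    omega

section main

variable {g h : ℝ → ℝ} {α : ℕ → ℝ} (hg : Continuous g) (hh : Continuous h) (hgh : ∀ x, g x ≤ h x)
  (hα : StrictMono α) (h0 : 0 < α 0) (hS : ∀ x, 0 < x → (g x = h x ↔ x ∈ range α))

include hg hh hgh

lemma Ck_eq (k : ℕ) : Ck g h α k = Fm g h '' (Jk α k ×ˢ Icc 0 1) := by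
  ext p
  constructor
  · rintro ⟨h1, h2⟩
    obtain ⟨s, hs0, hs1, hs2⟩ := exists_Fm h1
    exact ⟨(p.2, s), ⟨h2, hs0, hs1⟩, hs2⟩
  · rintro ⟨⟨x, s⟩, ⟨h2, hs0, hs1⟩, rfl⟩
    exact ⟨Fm_mem hgh hs0 hs1, h2⟩

lemma Ck_preconn (k : ℕ) : IsPreconnected (Ck g h α k) := by
  rw [Ck_eq hg hh hgh]
  have := Jk_ord α k
  exact (this.isPreconnected.prod isPreconnected_Icc).image _ (Fm_cont hg hh).continuousOn

lemma Ck_bounded (k : ℕ) : Bornology.IsBounded (Ck g h α k) := by
  have h1 : IsCompact (Fm g h '' (Icc (lo α k) (α k) ×ˢ Icc (0 : ℝ) 1)) :=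
    (isCompact_Icc.prod isCompact_Icc).image (Fm_cont hg hh)
  refine h1.isBounded.subset ?_
  rw [Ck_eq hg hh hgh]
  exact image_mono (prod_mono (Jk_sub α k) le_rfl)

include hα h0

lemma Ck_conn (k : ℕ) : IsConnected (Ck g h α k) := by
  refine ⟨?_, Ck_preconn hg hh hgh k⟩
  rw [Ck_eq hg hh hgh]
  refine Nonempty.image _ ⟨((lo α k + α k) / 2, 0), ?_, le_rfl, zero_le_one⟩
  have := lo_lt hα h0 k
  exact Ioo_sub_Jk α k ⟨by simp only; linarith, by simp only; linarith⟩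

/-- the `k`-th part is a connected component of the strip without the separating points -/
lemma Ck_component (k : ℕ) {U : Set (ℝ × ℝ)} (hU : ∀ p, p ∈ U ↔ p ∈ Strip g h ∧ 0 ≤ p.2 ∧ p.2 ∉ range α)
    {p : ℝ × ℝ} (hp : p ∈ Ck g h α k) : connectedComponentIn U p = Ck g h α k := by
  have hsub : Ck g h α k ⊆ U := by
    rintro q ⟨h1, h2⟩
    exact (hU q).2 ⟨h1, (lo_nonneg hα h0 k).trans (Jk_sub α k h2).1, Jk_not hα h2⟩
  apply Subset.antisymm
  · intro q hq
    have hqU := connectedComponentIn_subset U p hq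
    rw [hU] at hqU
    refine ⟨hqU.1, ?_⟩
    have hpre : IsPreconnected (Prod.snd '' connectedComponentIn U p) :=
      isPreconnected_connectedComponentIn.image _ continuous_snd.continuousOn
    have hord := hpre.ordConnected
    have hp2 : p.2 ∈ Prod.snd '' connectedComponentIn U p := ⟨p, mem_connectedComponentIn (hsub hp), rfl⟩
    have hq2 : q.2 ∈ Prod.snd '' connectedComponentIn U p := ⟨q, hq, rfl⟩
    have hno : ∀ j, α j ∉ Prod.snd '' connectedComponentIn U p := by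
      rintro j ⟨u, hu, hu2⟩
      have hu3 := connectedComponentIn_subset U p hu
      rw [hU] at hu3
      exact hu3.2.2 ⟨j, hu2.symm⟩
    have hpJ := hp.2
    have hnq : ∀ j, q.2 ≠ α j := fun j h1 => hqU.2.2 ⟨j, h1.symm⟩
    cases k with
    | zero =>
      refine ⟨hqU.2.1, ?_⟩
      by_contra hc
      push Not at hc
      exact hno 0 (hord.out hp2 hq2 ⟨hpJ.2.le, hc⟩)
    | succ k =>
      refine ⟨?_, ?_⟩
      · by_contra hc
        push Not at hc
        exact hno k (hord.out hq2 hp2 ⟨hc, hpJ.1.le⟩)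
      · by_contra hc
        push Not at hc
        exact hno (k + 1) (hord.out hp2 hq2 ⟨hpJ.2.le, hc⟩)
  · exact (Ck_preconn hg hh hgh k).subset_connectedComponentIn hp hsub

include hS

lemma strict_of {k : ℕ} {x : ℝ} (hx : x ∈ Ioo (lo α k) (α k)) : g x < h x := by
  have h1 : 0 < x := (lo_nonneg hα h0 k).trans_lt hx.1
  refine lt_of_le_of_ne (hgh x) fun h2 => ?_
  exact Jk_not hα (Ioo_sub_Jk α k hx) ((hS x h1).1 h2)

/-- the interior -/
lemma int_eq (k : ℕ) : interior (Ck g h α k) = Fm g h '' (Ioo (lo α k) (α k) ×ˢ Ioo 0 1) := by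
  apply Subset.antisymm
  · intro p hp
    rw [mem_interior_iff_mem_nhds, Metric.mem_nhds_iff] at hp
    obtain ⟨δ, hδ, hball⟩ := hp
    have hmv : ∀ u v : ℝ, |u| < δ → |v| < δ → (p.1 + u, p.2 + v) ∈ Ck g h α k := by
      intro u v hu hv
      apply hball
      rw [Metric.mem_ball, Prod.dist_eq, max_lt_iff]
      simp only [Real.dist_eq, add_sub_cancel_left]
      exact ⟨hu, hv⟩
    have hd2 : |δ / 2| < δ := by rw [abs_of_pos (by positivity)]; linarith
    have hd2' : |-(δ / 2)| < δ := by rw [abs_neg]; exact hd2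
    have hd0 : |(0 : ℝ)| < δ := by rw [abs_zero]; exact hδ
    have c1 := (hmv (δ / 2) 0 hd2 hd0).1.2
    have c2 := (hmv (-(δ / 2)) 0 hd2' hd0).1.1
    have c3 := (Jk_sub α k (hmv 0 (δ / 2) hd0 hd2).2).2
    have c4 := (Jk_sub α k (hmv 0 (-(δ / 2)) hd0 hd2').2).1
    simp only [add_zero] at c1 c2
    simp only at c3 c4
    have hx : p.2 ∈ Ioo (lo α k) (α k) := ⟨by linarith, by linarith⟩
    have hlt := strict_of hg hh hgh hα h0 hS hx
    have h4 : 0 < h p.2 - g p.2 := by linarith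
    refine ⟨(p.2, (p.1 - g p.2) / (h p.2 - g p.2)), ⟨hx, div_pos (by linarith) h4, ?_⟩, ?_⟩
    · simp only
      rw [div_lt_one h4]; linarith
    · simp only [Fm]
      rw [div_mul_cancel₀ _ h4.ne']
      ext <;> simp
  · have hopen : IsOpen (Fm g h '' (Ioo (lo α k) (α k) ×ˢ Ioo 0 1)) := by
      have heq : Fm g h '' (Ioo (lo α k) (α k) ×ˢ Ioo 0 1) =
          {p | g p.2 < p.1 ∧ p.1 < h p.2 ∧ lo α k < p.2 ∧ p.2 < α k} := by
        ext p
        constructor
        · rintro ⟨⟨x, s⟩, ⟨hx, hs0, hs1⟩, rfl⟩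
          have hlt := strict_of hg hh hgh hα h0 hS hx
          simp only at hs0 hs1 hx
          have h2 : 0 < s * (h x - g x) := mul_pos hs0 (by linarith)
          have h3 : s * (h x - g x) < 1 * (h x - g x) := mul_lt_mul_of_pos_right hs1 (by linarith)
          simp only [Fm, mem_ofPred_eq]
          exact ⟨by linarith, by linarith, hx.1, hx.2⟩
        · rintro ⟨h1, h2, h3, h4⟩
          have h5 : 0 < h p.2 - g p.2 := by linarith
          refine ⟨(p.2, (p.1 - g p.2) / (h p.2 - g p.2)), ⟨⟨h3, h4⟩, div_pos (by linarith) h5, ?_⟩, ?_⟩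
          · simp only
            rw [div_lt_one h5]; linarith
          · simp only [Fm]
            rw [div_mul_cancel₀ _ h5.ne']
            ext <;> simp
      rw [heq]
      have o1 : IsOpen {p : ℝ × ℝ | g p.2 < p.1} := isOpen_lt (hg.comp continuous_snd) continuous_fst
      have o2 : IsOpen {p : ℝ × ℝ | p.1 < h p.2} := isOpen_lt continuous_fst (hh.comp continuous_snd)
      have o3 : IsOpen {p : ℝ × ℝ | lo α k < p.2} := isOpen_lt continuous_const continuous_snd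
      have o4 : IsOpen {p : ℝ × ℝ | p.2 < α k} := isOpen_lt continuous_snd continuous_const
      exact o1.inter (o2.inter (o3.inter o4))
    refine interior_maximal ?_ hopen
    rw [Ck_eq hg hh hgh]
    exact image_mono (prod_mono (Ioo_sub_Jk α k) Ioo_subset_Icc_self)

lemma int_conn (k : ℕ) : IsConnected (interior (Ck g h α k)) := by
  rw [int_eq hg hh hgh hα h0 hS]
  have h1 := lo_lt hα h0 k
  exact ((isConnected_Ioo h1).prod (isConnected_Ioo zero_lt_one)).image _ (Fm_cont hg hh).continuousOn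

lemma sub_closure (k : ℕ) : Fm g h '' (Icc (lo α k) (α k) ×ˢ Icc 0 1) ⊆ closure (interior (Ck g h α k)) := by
  rw [int_eq hg hh hgh hα h0 hS]
  refine Subset.trans ?_ (image_closure_subset_closure_image (Fm_cont hg hh))
  rw [closure_prod_eq, closure_Ioo (lo_lt hα h0 k).ne, closure_Ioo zero_ne_one]

lemma Ck_sub_closure (k : ℕ) : Ck g h α k ⊆ closure (interior (Ck g h α k)) := by
  refine Subset.trans ?_ (sub_closure hg hh hgh hα h0 hS k)
  rw [Ck_eq hg hh hgh]
  exact image_mono (prod_mono (Jk_sub α k) le_rfl)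

lemma closure_eq (k : ℕ) : closure (Ck g h α k) = {p | p ∈ Strip g h ∧ lo α k ≤ p.2 ∧ p.2 ≤ α k} := by
  apply Subset.antisymm
  · refine closure_minimal ?_ ?_
    · rintro p ⟨h1, h2⟩
      exact ⟨h1, (Jk_sub α k h2).1, (Jk_sub α k h2).2⟩
    · have o1 : IsClosed {p : ℝ × ℝ | g p.2 ≤ p.1} := isClosed_le (hg.comp continuous_snd) continuous_fst
      have o2 : IsClosed {p : ℝ × ℝ | p.1 ≤ h p.2} := isClosed_le continuous_fst (hh.comp continuous_snd)
      have o3 : IsClosed {p : ℝ × ℝ | lo α k ≤ p.2} := isClosed_le continuous_const continuous_snd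
      have o4 : IsClosed {p : ℝ × ℝ | p.2 ≤ α k} := isClosed_le continuous_snd continuous_const
      exact (o1.inter o2).inter (o3.inter o4)
  · rintro p ⟨h1, h2, h3⟩
    obtain ⟨s, hs0, hs1, hs2⟩ := exists_Fm h1
    refine closure_mono interior_subset (sub_closure hg hh hgh hα h0 hS k ?_)
    exact ⟨(p.2, s), ⟨⟨h2, h3⟩, hs0, hs1⟩, hs2⟩

lemma closure_inter (k : ℕ) : closure (Ck g h α k) ∩ closure (Ck g h α (k + 1)) = {(g (α k), α k)} := by
  have hk : 0 < α k := (lo_nonneg hα h0 k).trans_lt (lo_lt hα h0 k)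
  have heq : g (α k) = h (α k) := (hS _ hk).2 ⟨k, rfl⟩
  rw [closure_eq hg hh hgh hα h0 hS, closure_eq hg hh hgh hα h0 hS]
  ext p
  constructor
  · rintro ⟨⟨⟨h1, h2⟩, -, h3⟩, ⟨-, h4, -⟩⟩
    have h5 : p.2 = α k := le_antisymm h3 h4
    rw [h5] at h1 h2
    rw [mem_singleton_iff]
    ext
    · simp only
      linarith
    · exact h5
  · rintro rfl
    refine ⟨⟨⟨le_rfl, heq.le⟩, (lo_lt hα h0 k).le, le_rfl⟩, ⟨⟨le_rfl, heq.le⟩, le_rfl, ?_⟩⟩
    exact (hα (Nat.lt_succ_self k)).le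

end main

end Pool.Agent.U375.JO
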